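import Pool.Agent.W801.OU.Stm

/-!
Aux file for task TRIB of project KI: the outside of the box in the cylinder.
-/

set_option autoImplicit false

namespace Pool.Agent.W756.KI.TTRIB
open H974 H906.Cyl
open Pool.Agent.H160R2.ML (nm)
open Pool.Agent.W801.OU

/-! ### elementary facts -/

theorem nm_le {v : Vtx} {m : ℤ} : nm v ≤ m ↔ (-m ≤ v.1 ∧ v.1 ≤ m) ∧ (-m ≤ v.2 ∧ v.2 ≤ m) := by
  unfold nm
  rw [max_le_iff, abs_le, abs_le]

/-- distance from the axis between `-1` and `0` -/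
def mm (k : ℤ) : ℤ := if 0 ≤ k then k else -1 - k

theorem bx_iff {R : ℤ} {e : Edg} :
    e ∈ bxz R ↔ mm (e.1 + e.2.1) + mm (dco e) + 1 ≤ 2 * R := by
  show (nm (src e) ≤ R ∧ nm (tgt e) ≤ R) ↔ _
  rw [nm_le, nm_le]
  obtain ⟨x, y, _ | _⟩ := e
  · simp only [src_mk, tgt_false, dco, Bool.false_eq_true, if_false, mm]
    split_ifs <;> omega
  · simp only [src_mk, tgt_true, dco, if_true, mm]
    split_ifs <;> omega

theorem edz_s (s d : ℤ) : (edz s d).1 + (edz s d).2.1 = s := by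
  unfold edz
  split_ifs <;> simp only [] <;> omega

theorem edz_d (s d : ℤ) : dco (edz s d) = d := by
  unfold edz dco
  by_cases h1 : (s + d) % 2 = 0
  · rw [if_pos h1]
    simp only [if_true]
    omega
  · rw [if_neg h1]
    simp only [Bool.false_eq_true, if_false]
    omega

/-- translation of edges -/
def she (n : ℕ) (q : ℤ) (e : Edg) : Edg := (e.1 + n * q, e.2.1 + n * q, e.2.2)

/-- translation of points -/
def shp (n : ℕ) (q : ℤ) (x : ℤ × ℤ) : ℤ × ℤ := (x.1 + 2 * n * q, x.2)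

theorem dco_she (n : ℕ) (q : ℤ) (e : Edg) : dco (she n q e) = dco e := by
  obtain ⟨x, y, _ | _⟩ := e <;> simp only [she, dco, if_true, Bool.false_eq_true, if_false] <;> ring

theorem col_she (n : ℕ) (q : ℤ) (e : Edg) :
    (she n q e).1 + (she n q e).2.1 = e.1 + e.2.1 + 2 * n * q := by
  simp only [she]; ring

theorem scz_shp (n : ℕ) (q s : ℤ) (c : ℕ) : shp n q (scz n s c) = scz n (s + q) c := by
  simp only [shp, scz, Prod.mk.injEq, and_true]
  ring

theorem scz_zero (n c : ℕ) : scz 0 0 c = scz n 0 c := by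
  simp only [scz, Prod.mk.injEq, and_true]
  push_cast; ring

theorem Zn_shift (n : ℕ) (j q : ℤ) : j + 2 * n * q ∈ Zn n ↔ j ∈ Zn n := by
  show (j + 2 * n * q) % ((2 * n : ℕ) : ℤ) = 0 ↔ j % ((2 * n : ℕ) : ℤ) = 0
  rw [show (j + 2 * n * q) = j + ((2 * n : ℕ) : ℤ) * q by push_cast; ring,
    Int.add_mul_emod_self_left]

theorem nrm_shift (n : ℕ) (d j t q : ℤ) :
    nrm (Zn n) d (j + 2 * n * q) t = shp n q (nrm (Zn n) d j t) := by
  unfold nrm
  by_cases h : d < 0 ∧ j ∈ Zn n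
  · rw [if_pos h, if_pos ⟨h.1, (Zn_shift n j q).2 h.2⟩]
    simp only [shp, Prod.mk.injEq, and_true]; ring
  · rw [if_neg h, if_neg (fun h' => h ⟨h'.1, (Zn_shift n j q).1 h'.2⟩)]
    simp only [shp]

theorem Dg_shift {n : ℕ} {c : ℤ} {e : Edg} {x y : ℤ × ℤ} (q : ℤ) (h : Dg (Zn n) c e x y) :
    Dg (Zn n) c (she n q e) (shp n q x) (shp n q y) := by
  have hm : ((she n q e).1 + (she n q e).2.1 + dco (she n q e)) % 2 =
      (e.1 + e.2.1 + dco e) % 2 := by
    rw [col_she, dco_she]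
    rw [show e.1 + e.2.1 + 2 * n * q + dco e = e.1 + e.2.1 + dco e + 2 * (n * q) by ring,
      Int.add_mul_emod_self_left]
  cases h with
  | rise hp =>
    have := Dg.rise (Z := Zn n) (c := c) (e := she n q e) (by rw [hm]; exact hp)
    rw [col_she, dco_she, show e.1 + e.2.1 + 2 * n * q + 1 = e.1 + e.2.1 + 1 + 2 * n * q by ring,
      nrm_shift, nrm_shift] at this
    exact this
  | fall hp =>
    have := Dg.fall (Z := Zn n) (c := c) (e := she n q e) (by rw [hm]; exact hp)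
    rw [col_she, dco_she, show e.1 + e.2.1 + 2 * n * q + 1 = e.1 + e.2.1 + 1 + 2 * n * q by ring,
      nrm_shift, nrm_shift] at this
    exact this

theorem zp_shift {n : ℕ} {e : Edg} (q : ℤ) : she n q e ∈ zp (Zn n) ↔ e ∈ zp (Zn n) := by
  show dco (she n q e) < 0 ∧ (she n q e).1 + (she n q e).2.1 + 1 ∈ Zn n ↔
    dco e < 0 ∧ e.1 + e.2.1 + 1 ∈ Zn n
  rw [dco_she, col_she, show e.1 + e.2.1 + 2 * n * q + 1 = e.1 + e.2.1 + 1 + 2 * n * q by ring,
    Zn_shift]

theorem RC_shift {n : ℕ} (hn : 0 < n) {F : Finset Edg} {x y : ℤ × ℤ} (q : ℤ)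
    (h : RC n (per n F) x y) : RC n (per n F) (shp n q x) (shp n q y) := by
  induction h with
  | rel x y h =>
    refine Relation.EqvGen.rel _ _ ?_
    obtain ⟨e, -, hz, h⟩ := h
    have hm : she n q e ∈ per n F ↔ e ∈ per n F := by
      show red n _ ∈ F ↔ red n _ ∈ F
      rw [show she n q e = (e.1 + n * q, e.2.1 + n * q, e.2.2) from rfl, red_shift hn]
    refine ⟨she n q e, Set.mem_univ _, fun h => hz ((zp_shift q).1 h), ?_⟩
    rw [hm]
    rcases h with ⟨h1, h2⟩ | ⟨h1, h2⟩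
    · exact Or.inl ⟨h1, Dg_shift q h2⟩
    · exact Or.inr ⟨h1, Dg_shift q h2⟩
  | refl x => exact Relation.EqvGen.refl _
  | symm x y _ ih => exact Relation.EqvGen.symm _ _ ih
  | trans x y z _ _ ih1 ih2 => exact Relation.EqvGen.trans _ _ _ ih1 ih2

theorem Zn_small {n : ℕ} {j : ℤ} (h1 : -(2 * (n : ℤ)) < j) (h2 : j < 2 * n) :
    j ∈ Zn n ↔ j ∈ ({0} : Set ℤ) := by
  show j % ((2 * n : ℕ) : ℤ) = 0 ↔ j = 0
  constructor
  · intro h
    exact Int.eq_zero_of_abs_lt_dvd (Int.dvd_of_emod_eq_zero h)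
      (by push_cast; rw [abs_lt]; exact ⟨h1, h2⟩)
  · rintro rfl; simp

theorem Zn_ne {n : ℕ} {j : ℤ} (h1 : -(2 * (n : ℤ)) < j) (h2 : j < 2 * n) (h0 : j ≠ 0) :
    j ∉ Zn n := fun h => h0 ((Zn_small h1 h2).1 h)

theorem nrm_small {n : ℕ} {d j t : ℤ} (h1 : -(2 * (n : ℤ)) < j) (h2 : j < 2 * n) :
    nrm (Zn n) d j t = nrm {0} d j t := by
  unfold nrm
  by_cases h : d < 0 ∧ j ∈ ({0} : Set ℤ)
  · rw [if_pos h, if_pos ⟨h.1, (Zn_small h1 h2).2 h.2⟩]
  · rw [if_neg h, if_neg (fun h' => h ⟨h'.1, (Zn_small h1 h2).1 h'.2⟩)]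

theorem nrm_ne {Z : Set ℤ} {d j t : ℤ} (h : ¬ (d < 0 ∧ j ∈ Z)) : nrm Z d j t = (j, t) := by
  unfold nrm; rw [if_neg h]

theorem Dg_small {n : ℕ} {c : ℤ} {e : Edg} {x y : ℤ × ℤ} (h1 : -(2 * (n : ℤ)) < e.1 + e.2.1)
    (h2 : e.1 + e.2.1 + 1 < 2 * n) (h : Dg {0} c e x y) : Dg (Zn n) c e x y := by
  cases h with
  | rise hp =>
    have := Dg.rise (Z := Zn n) (c := c) (e := e) hp
    rw [nrm_small (by omega) (by omega), nrm_small (by omega) (by omega)] at this
    exact this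
  | fall hp =>
    have := Dg.fall (Z := Zn n) (c := c) (e := e) hp
    rw [nrm_small (by omega) (by omega), nrm_small (by omega) (by omega)] at this
    exact this

/-- two edges with the same reduction and close columns are equal -/
theorem red_eq_of_near {n : ℕ} (hn : 0 < n) {e e' : Edg} (h : red n e = red n e')
    (h1 : (e.1 + e.2.1) - (e'.1 + e'.2.1) < 2 * n) (h2 : (e'.1 + e'.2.1) - (e.1 + e.2.1) < 2 * n) :
    e = e' := by
  obtain ⟨x, y, b⟩ := e
  obtain ⟨x', y', b'⟩ := e'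
  simp only [red, Prod.mk.injEq] at h h1 h2 ⊢
  obtain ⟨e1, e2, e3⟩ := h
  set q := (x + y) / (2 * (n : ℤ)) with hq
  set q' := (x' + y') / (2 * (n : ℤ)) with hq'
  have hqq : q = q' := by
    have hs : (x + y) - (x' + y') = 2 * n * (q - q') := by linarith
    have hn' : (0 : ℤ) < 2 * n := by exact_mod_cast (by omega : 0 < 2 * n)
    have h3 : (q - q') < 1 := by
      by_contra hc
      push Not at hc
      nlinarith
    have h4 : -1 < (q - q') := by
      by_contra hc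
      push Not at hc
      nlinarith
    omega
  rw [hqq] at e1 e2
  exact ⟨by linarith, by linarith, e3⟩

/-! ### the configuration -/

open Classical in
/-- the configuration of the cylinder: copies of the box, the outside is open if `c = 0` and closed if
`c = 1` -/
noncomputable def FF (n M R : ℕ) (c : ℤ) (G : Set Edg) : Finset Edg :=
  (CE n M).filter (fun f => (∃ e ∈ bxz R, red n e = f ∧ e ∈ G) ∨
    (c = 0 ∧ ∀ e ∈ bxz R, red n e ≠ f))

/-- the data -/
structure DD (n M R : ℕ) (c : ℤ) : Prop where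
  hR : 1 ≤ R
  hn : n = 8 * R + 20
  hM : M = 4 * n
  hc : c = 0 ∨ c = 1

variable {n M R : ℕ} {c : ℤ} {G : Set Edg}

theorem DD.n0 (D : DD n M R c) : 0 < n := by have := D.hn; omega

theorem bx_bd {R : ℕ} {e : Edg} (he : e ∈ bxz R) :
    -(2 * (R : ℤ)) ≤ e.1 + e.2.1 ∧ e.1 + e.2.1 + 1 ≤ 2 * R ∧ -(2 * (R : ℤ)) ≤ dco e ∧
      dco e + 1 ≤ 2 * R := by
  rw [bx_iff] at he
  unfold mm at he
  split_ifs at he <;> omega

theorem DD.mem_box (D : DD n M R c) {e : Edg} (he : e ∈ bxz R) :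
    e ∈ per n (FF n M R c G) ↔ e ∈ G := by
  classical
  have hb := bx_bd he
  have hn := D.hn
  have hM := D.hM
  have hR := D.hR
  show red n e ∈ FF n M R c G ↔ _
  unfold FF
  rw [Finset.mem_filter]
  constructor
  · rintro ⟨-, ⟨e', he', h1, h2⟩ | ⟨-, h⟩⟩
    · have hb' := bx_bd he'
      have := red_eq_of_near D.n0 h1 (by omega) (by omega)
      rwa [this] at h2
    · exact absurd rfl (h e he)
  · intro hG
    exact ⟨red_mem D.n0 (by omega) (by omega), Or.inl ⟨e, he, rfl, hG⟩⟩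

/-- the link of class `c` is present -/
def Pre (n : ℕ) (G' : Set Edg) (c : ℤ) (e : Edg) : Prop :=
  e ∉ zp (Zn n) ∧ ((e ∈ G' ∧ c = 0) ∨ (e ∉ G' ∧ c = 1))

theorem Pre.rc {G' : Set Edg} {e : Edg} {x y : ℤ × ℤ} (h : Pre n G' c e)
    (hd : Dg (Zn n) c e x y) : RC n G' x y := by
  refine Relation.EqvGen.rel _ _ ⟨e, Set.mem_univ _, h.1, ?_⟩
  rcases h.2 with ⟨h1, rfl⟩ | ⟨h1, rfl⟩
  · exact Or.inl ⟨h1, hd⟩
  · exact Or.inr ⟨h1, hd⟩

/-- squares outside of all the boxes -/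
theorem DD.pre_of (D : DD n M R c) {e : Edg} (hz : e ∉ zp (Zn n))
    (ho : ∀ e' ∈ bxz R, red n e' ≠ red n e) (h1 : -(M : ℤ) ≤ dco e) (h2 : dco e < M) :
    Pre n (per n (FF n M R c G)) c e := by
  classical
  refine ⟨hz, ?_⟩
  rcases D.hc with rfl | rfl
  · left
    refine ⟨?_, rfl⟩
    show red n e ∈ FF n M R 0 G
    unfold FF
    rw [Finset.mem_filter]
    exact ⟨red_mem D.n0 h1 h2, Or.inr ⟨rfl, ho⟩⟩
  · right
    refine ⟨?_, rfl⟩
    show ¬ red n e ∈ FF n M R 1 G
    unfold FF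
    rw [Finset.mem_filter]
    rintro ⟨-, ⟨e', he', h3, -⟩ | ⟨h3, -⟩⟩
    · exact ho e' he' h3
    · exact absurd h3 one_ne_zero

/-- squares near the box and outside of it -/
theorem DD.pre_near (D : DD n M R c) {e : Edg} (hz : e ∉ zp (Zn n)) (ho : e ∉ bxz R)
    (h1 : -(n : ℤ) ≤ e.1 + e.2.1) (h2 : e.1 + e.2.1 < n) (h3 : -(n : ℤ) ≤ dco e) (h4 : dco e < n) :
    Pre n (per n (FF n M R c G)) c e := by
  have hn := D.hn
  have hM := D.hM
  refine D.pre_of hz ?_ (by omega) (by omega)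
  intro e' he' h
  have hb' := bx_bd he'
  have := red_eq_of_near D.n0 h (by omega) (by omega)
  rw [this] at he'
  exact ho he'

/-- squares above all the boxes -/
theorem DD.pre_high (D : DD n M R c) {e : Edg} (h1 : 2 * (R : ℤ) ≤ dco e) (h2 : dco e < n) :
    Pre n (per n (FF n M R c G)) c e := by
  have hn := D.hn
  have hM := D.hM
  refine D.pre_of ?_ ?_ (by omega) (by omega)
  · rintro ⟨h3, -⟩
    omega
  · intro e' he' h
    have hb' := bx_bd he'
    have h5 := congrArg dco h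
    rw [dco_red, dco_red] at h5
    omega

/-! ### rays -/

theorem DD.right (D : DD n M R c) {j t : ℤ} (hj : 1 ≤ j) (hc : (j + t) % 2 = c)
    (hm : 2 * (R : ℤ) ≤ mm j + mm t) (k : ℕ) (hk1 : j + k < n) (hk2 : -(n : ℤ) ≤ t)
    (hk3 : t + k < n) : RC n (per n (FF n M R c G)) (j, t) (j + k, t + k) := by
  induction k with
  | zero => simp only [Nat.cast_zero, add_zero]; exact Relation.EqvGen.refl _
  | succ k ih =>
    push_cast at hk1 hk3
    refine Relation.EqvGen.trans _ _ _ (ih (by omega) (by omega)) ?_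
    have hn := D.hn
    have es := edz_s (j + k) (t + k)
    have ed := edz_d (j + k) (t + k)
    have hpre : Pre n (per n (FF n M R c G)) c (edz (j + k) (t + k)) := by
      refine D.pre_near ?_ ?_ ?_ ?_ ?_ ?_
      · rintro ⟨-, h⟩
        rw [es] at h
        exact Zn_ne (by omega) (by omega) (by omega) h
      · rw [bx_iff, es, ed]
        unfold mm at hm ⊢
        split_ifs at hm ⊢ <;> omega
      · rw [es]; omega
      · rw [es]; omega
      · rw [ed]; omega
      · rw [ed]; omega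
    have hd : Dg (Zn n) c (edz (j + k) (t + k)) _ _ := Dg.rise (by rw [es, ed]; omega)
    rw [es, ed, nrm_ne (fun h => Zn_ne (by omega) (by omega) (by omega) h.2),
      nrm_ne (fun h => Zn_ne (by omega) (by omega) (by omega) h.2)] at hd
    have := hpre.rc hd
    push_cast
    rw [← add_assoc, ← add_assoc]
    exact this

theorem DD.left (D : DD n M R c) {j t : ℤ} (hj : j ≤ -1) (hc : (j + t) % 2 = c)
    (hm : 2 * (R : ℤ) ≤ -j + mm t) (k : ℕ) (hk1 : -(n : ℤ) ≤ j - k) (hk2 : -(n : ℤ) ≤ t)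
    (hk3 : t + k < n) : RC n (per n (FF n M R c G)) (j, t) (j - k, t + k) := by
  induction k with
  | zero => simp only [Nat.cast_zero, add_zero, sub_zero]; exact Relation.EqvGen.refl _
  | succ k ih =>
    push_cast at hk1 hk3
    refine Relation.EqvGen.trans _ _ _ (ih (by omega) (by omega)) ?_
    have hn := D.hn
    have hc01 := D.hc
    have es := edz_s (j - k - 1) (t + k)
    have ed := edz_d (j - k - 1) (t + k)
    have hpre : Pre n (per n (FF n M R c G)) c (edz (j - k - 1) (t + k)) := by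
      refine D.pre_near ?_ ?_ ?_ ?_ ?_ ?_
      · rintro ⟨-, h⟩
        rw [es] at h
        exact Zn_ne (by omega) (by omega) (by omega) h
      · rw [bx_iff, es, ed]
        unfold mm at hm ⊢
        split_ifs at hm ⊢ <;> omega
      · rw [es]; omega
      · rw [es]; omega
      · rw [ed]; omega
      · rw [ed]; omega
    have hd : Dg (Zn n) c (edz (j - k - 1) (t + k)) _ _ := Dg.fall (by rw [es, ed]; omega)
    rw [es, ed, nrm_ne (fun h => Zn_ne (by omega) (by omega) (by omega) h.2),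
      nrm_ne (fun h => Zn_ne (by omega) (by omega) (by omega) h.2)] at hd
    have := Relation.EqvGen.symm _ _ (hpre.rc hd)
    push_cast
    rw [show j - (k + 1 : ℤ) = j - k - 1 by ring, ← add_assoc]
    rwa [show j - (k : ℤ) - 1 + 1 = j - k by ring] at this

theorem DD.level (D : DD n M R c) {j T : ℤ} (hT : 2 * (R : ℤ) ≤ T) (hT2 : T < n)
    (hc : (j + T) % 2 = c) (k : ℕ) :
    RC n (per n (FF n M R c G)) (j, T) (j + 2 * k, T) := by
  induction k with
  | zero => simp only [Nat.cast_zero, mul_zero, add_zero]; exact Relation.EqvGen.refl _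
  | succ k ih =>
    refine Relation.EqvGen.trans _ _ _ ih ?_
    have hc01 := D.hc
    have es := edz_s (j + 2 * k) T
    have ed := edz_d (j + 2 * k) T
    have es' := edz_s (j + 2 * k + 1) T
    have ed' := edz_d (j + 2 * k + 1) T
    have hp1 : Pre n (per n (FF n M R c G)) c (edz (j + 2 * k) T) :=
      D.pre_high (by rw [ed]; exact hT) (by rw [ed]; exact hT2)
    have hp2 : Pre n (per n (FF n M R c G)) c (edz (j + 2 * k + 1) T) :=
      D.pre_high (by rw [ed']; exact hT) (by rw [ed']; exact hT2)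
    have hd : Dg (Zn n) c (edz (j + 2 * k) T) _ _ := Dg.rise (by rw [es, ed]; omega)
    have hd' : Dg (Zn n) c (edz (j + 2 * k + 1) T) _ _ := Dg.fall (by rw [es', ed']; omega)
    rw [es, ed, nrm_ne (by omega), nrm_ne (by omega)] at hd
    rw [es', ed', nrm_ne (by omega), nrm_ne (by omega)] at hd'
    have := Relation.EqvGen.trans _ _ _ (hp1.rc hd) (hp2.rc hd')
    push_cast
    rwa [show j + 2 * ((k : ℤ) + 1) = j + 2 * k + 1 + 1 by ring]

/-! ### corners of outside squares -/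

/-- a corner of class `c` of an outside square near the box is connected to the level `T` -/
theorem DD.corner (D : DD n M R c) {e : Edg} {x : ℤ × ℤ} (he : e ∉ bxz R) (hz : e ∉ zp {0})
    (hs1 : -(2 * (R : ℤ)) - 3 ≤ e.1 + e.2.1) (hs2 : e.1 + e.2.1 ≤ 2 * R + 3)
    (hd1 : -(2 * (R : ℤ)) - 3 ≤ dco e) (hd2 : dco e ≤ 2 * R + 3)
    (hx : ∃ y, Dg {0} c e x y ∨ Dg {0} c e y x) :
    ∃ j : ℤ, (j + (2 * R + 4)) % 2 = c ∧
      RC n (per n (FF n M R c G)) x (j, 2 * R + 4) := by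
  have hn := D.hn
  have hR := D.hR
  have hc01 := D.hc
  have hz' : e ∉ zp (Zn n) := by
    rintro ⟨h1, h2⟩
    exact hz ⟨h1, (Zn_small (by omega) (by omega)).1 h2⟩
  have hpre : Pre n (per n (FF n M R c G)) c e :=
    D.pre_near hz' he (by omega) (by omega) (by omega) (by omega)
  have hout : 2 * (R : ℤ) ≤ mm (e.1 + e.2.1) + mm (dco e) := by
    rw [bx_iff] at he
    omega
  -- the two ends of the diagonal
  have key : ∀ a b : ℤ × ℤ, Dg {0} c e a b → ∃ j : ℤ, (j + (2 * R + 4)) % 2 = c ∧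
      RC n (per n (FF n M R c G)) a (j, 2 * R + 4) := by
    intro a b hab
    have hab' := hpre.rc (Dg_small (by omega) (by omega) hab)
    by_cases hside : 0 ≤ e.1 + e.2.1
    · -- right side: the end `b`
      have hb : ∃ tR : ℤ, b = (e.1 + e.2.1 + 1, tR) ∧ (tR = dco e ∨ tR = dco e + 1) ∧
          (e.1 + e.2.1 + 1 + tR) % 2 = c := by
        cases hab with
        | rise hp =>
          refine ⟨dco e + 1, nrm_ne ?_, Or.inr rfl, by omega⟩
          rintro ⟨-, h⟩
          have h' : e.1 + e.2.1 + 1 = 0 := h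
          omega
        | fall hp =>
          refine ⟨dco e, nrm_ne ?_, Or.inl rfl, by omega⟩
          rintro ⟨-, h⟩
          have h' : e.1 + e.2.1 + 1 = 0 := h
          omega
      obtain ⟨tR, rfl, htR, hpar⟩ := hb
      have hk : ∃ k : ℕ, (k : ℤ) = 2 * R + 4 - tR :=
        ⟨(2 * R + 4 - tR).toNat, Int.toNat_of_nonneg (by omega)⟩
      obtain ⟨k, hk⟩ := hk
      have h1 := D.right (G := G) (j := e.1 + e.2.1 + 1) (t := tR) (by omega) hpar
        (by unfold mm at hout ⊢; split_ifs at hout ⊢ <;> omega) k (by omega) (by omega) (by omega)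
      rw [hk, show tR + (2 * (R : ℤ) + 4 - tR) = 2 * R + 4 by ring] at h1
      exact ⟨_, by omega, Relation.EqvGen.trans _ _ _ hab' h1⟩
    · -- left side: the end `a`
      have hs : dco e < 0 → e.1 + e.2.1 + 1 ≠ 0 := fun h1 h2 => hz ⟨h1, h2⟩
      have ha : ∃ tL : ℤ, a = (e.1 + e.2.1, tL) ∧ (tL = dco e ∨ tL = dco e + 1) ∧
          (e.1 + e.2.1 + tL) % 2 = c := by
        cases hab with
        | rise hp =>
          refine ⟨dco e, nrm_ne ?_, Or.inl rfl, by omega⟩
          rintro ⟨-, h⟩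
          have h' : e.1 + e.2.1 = 0 := h
          omega
        | fall hp =>
          refine ⟨dco e + 1, nrm_ne ?_, Or.inr rfl, by omega⟩
          rintro ⟨-, h⟩
          have h' : e.1 + e.2.1 = 0 := h
          omega
      obtain ⟨tL, rfl, htL, hpar⟩ := ha
      have hk : ∃ k : ℕ, (k : ℤ) = 2 * R + 4 - tL :=
        ⟨(2 * R + 4 - tL).toNat, Int.toNat_of_nonneg (by omega)⟩
      obtain ⟨k, hk⟩ := hk
      have h1 := D.left (G := G) (j := e.1 + e.2.1) (t := tL) (by omega) hpar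
        (by unfold mm at hout ⊢; split_ifs at hout ⊢ <;> omega) k (by omega) (by omega) (by omega)
      rw [hk, show tL + (2 * (R : ℤ) + 4 - tL) = 2 * R + 4 by ring] at h1
      exact ⟨_, by omega, h1⟩
  obtain ⟨y, hy | hy⟩ := hx
  · exact key _ _ hy
  · -- the other end
    obtain ⟨j, hj, h⟩ := key _ _ hy
    refine ⟨j, hj, Relation.EqvGen.trans _ _ _ (Relation.EqvGen.symm _ _ ?_) h⟩
    exact hpre.rc (Dg_small (by omega) (by omega) hy)

/-- it is connected to its translate -/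
theorem DD.tour (D : DD n M R c) {x : ℤ × ℤ} {j : ℤ} (hj : (j + (2 * R + 4)) % 2 = c)
    (h : RC n (per n (FF n M R c G)) x (j, 2 * R + 4)) :
    RC n (per n (FF n M R c G)) x (shp n 1 x) := by
  have hn := D.hn
  have h1 := RC_shift D.n0 1 h
  have h2 := D.level (G := G) (j := j) (T := 2 * R + 4) (by omega) (by omega) hj n
  have h3 : shp n 1 (j, 2 * (R : ℤ) + 4) = (j + 2 * (n : ℤ), 2 * (R : ℤ) + 4) := by
    simp only [shp, mul_one]
  rw [h3] at h1
  exact Relation.EqvGen.trans _ _ _ (Relation.EqvGen.trans _ _ _ h h2)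
    (Relation.EqvGen.symm _ _ h1)

/-! ### connections of the box -/

theorem DD.box (D : DD n M R c) {x y : ℤ × ℤ} (h : RZ {0} (bxz R) G x y) :
    RC n (per n (FF n M R c G)) x y := by
  refine Relation.EqvGen.mono ?_ _ _ h
  rintro a b ⟨e, he, hz, h⟩
  have hb := bx_bd he
  have hn := D.hn
  refine ⟨e, Set.mem_univ _, ?_, ?_⟩
  · rintro ⟨k1, k2⟩
    exact hz ⟨k1, (Zn_small (by omega) (by omega)).1 k2⟩
  · rw [D.mem_box he]
    rcases h with ⟨k1, k2⟩ | ⟨k1, k2⟩
    · exact Or.inl ⟨k1, Dg_small (by omega) (by omega) k2⟩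
    · exact Or.inr ⟨k1, Dg_small (by omega) (by omega) k2⟩

/-- coordinates of corners -/
theorem Dg_bd {c : ℤ} {e : Edg} {x y : ℤ × ℤ} (h : Dg {0} c e x y) :
    (e.1 + e.2.1 - 1 ≤ x.1 ∧ x.1 ≤ e.1 + e.2.1 + 1 ∧ dco e ≤ x.2 ∧ x.2 ≤ dco e + 1) ∧
    (e.1 + e.2.1 - 1 ≤ y.1 ∧ y.1 ≤ e.1 + e.2.1 + 1 ∧ dco e ≤ y.2 ∧ y.2 ≤ dco e + 1) := by
  have hn : ∀ d j t : ℤ, (nrm {0} d j t = (j, t) ∨ nrm {0} d j t = (j - 1, t)) := by
    intro d j t
    unfold nrm
    split_ifs
    · exact Or.inr rfl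
    · exact Or.inl rfl
  cases h with
  | rise _ =>
    rcases hn (dco e) (e.1 + e.2.1) (dco e) with h1 | h1 <;>
    rcases hn (dco e) (e.1 + e.2.1 + 1) (dco e + 1) with h2 | h2 <;>
    rw [h1, h2] <;> simp only [] <;> omega
  | fall _ =>
    rcases hn (dco e) (e.1 + e.2.1) (dco e + 1) with h1 | h1 <;>
    rcases hn (dco e) (e.1 + e.2.1 + 1) (dco e) with h2 | h2 <;>
    rw [h1, h2] <;> simp only [] <;> omega

/-- points near the box -/
def NB (R : ℕ) (x : ℤ × ℤ) : Prop :=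
  (-(2 * (R : ℤ)) - 1 ≤ x.1 ∧ x.1 ≤ 2 * R + 1) ∧ (-(2 * (R : ℤ)) - 1 ≤ x.2 ∧ x.2 ≤ 2 * R + 1)

theorem RZ_bd {x y : ℤ × ℤ} (h : RZ {0} (bxz R) G x y) : x = y ∨ (NB R x ∧ NB R y) := by
  induction h with
  | rel x y h =>
    right
    obtain ⟨e, he, -, h⟩ := h
    have hb := bx_bd he
    rcases h with ⟨-, h⟩ | ⟨-, h⟩
    · have := Dg_bd h
      unfold NB
      omega
    · have := Dg_bd h
      unfold NB
      omega
  | refl x => exact Or.inl rfl
  | symm x y _ ih =>
    rcases ih with h | h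
    · exact Or.inl h.symm
    · exact Or.inr ⟨h.2, h.1⟩
  | trans x y z _ _ ih1 ih2 =>
    rcases ih1 with rfl | h1
    · exact ih2
    · rcases ih2 with rfl | h2
      · exact Or.inr h1
      · exact Or.inr ⟨h1.1, h2.2⟩

/-- **the main step**: a sector which touches the outside is connected to another tip -/
theorem DD.outw (D : DD n M R c) {t : ℕ} (ht : t < 3) {x : ℤ × ℤ} {e : Edg}
    (h : RZ {0} (bxz R) G (scz 0 0 t) x) (he : e ∉ bxz R) (hx : Cor {0} c e x) :
    Outw n (per n (FF n M R c G)) t := by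
  have hR := D.hR
  have hNB : NB R x := by
    rcases RZ_bd h with h1 | h1
    · rw [← h1]
      unfold NB scz
      simp only
      push_cast
      omega
    · exact h1.2
  obtain ⟨hz, y, hy⟩ := hx
  have hxb : e.1 + e.2.1 - 1 ≤ x.1 ∧ x.1 ≤ e.1 + e.2.1 + 1 ∧ dco e ≤ x.2 ∧ x.2 ≤ dco e + 1 := by
    rcases hy with hy | hy
    · exact (Dg_bd hy).1
    · exact (Dg_bd hy).2
  unfold NB at hNB
  obtain ⟨j, hj, h1⟩ := D.corner (G := G) he hz (by omega) (by omega) (by omega) (by omega) ⟨y, hy⟩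
  have h2 := D.tour hj h1
  have h3 := D.box h
  rw [scz_zero n] at h3
  have h4 := RC_shift D.n0 1 h3
  rw [scz_shp, zero_add] at h4
  exact ⟨1, one_ne_zero, t, ht, Relation.EqvGen.trans _ _ _ (Relation.EqvGen.trans _ _ _ h3 h2)
    (Relation.EqvGen.symm _ _ h4)⟩

/-- the two parts of the theorem -/
theorem main (hT : S_TRIc) (R : ℕ) (G : Set Edg) (hR : 1 ≤ R) (t a b : ℕ) (ht : t < 3)
    (ha : a < 3) (hb : b < 3) (hta : t ≠ a) (htb : t ≠ b) (hab : a ≠ b)
    (h : RZ {0} (bxz R) G (scz 0 0 a) (scz 0 0 b)) :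
    ¬ RZ {0} (bxz R) G (scz 0 0 t) (scz 0 0 a) ∧
    ¬ ∃ x : ℤ × ℤ, RZ {0} (bxz R) G (scz 0 0 t) x ∧
      ∃ e ∉ bxz R, Cor {0} 0 e x ∨ Cor {0} 1 e x := by
  -- for both choices of the outside: the bad alternative holds
  have hAlt : ∀ c : ℤ, (c = 0 ∨ c = 1) → ∀ n M : ℕ, DD n M R c →
      RC n (per n (FF n M R c G)) (scz n 0 a) (scz n 0 b) ∧ Alt3 n (per n (FF n M R c G)) := by
    classical
    intro c hc n M D
    have h1 := D.box h
    rw [scz_zero n, scz_zero n] at h1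
    refine ⟨h1, ?_⟩
    rcases hT n M (by have := D.hn; omega) (FF n M R c G) (Finset.filter_subset _ _) with h2 | h2
    · exact absurd h1 (h2.1 a b ha hb hab)
    · exact h2
  constructor
  · intro h'
    have D : DD (8 * R + 20) (4 * (8 * R + 20)) R 0 := ⟨hR, rfl, rfl, Or.inl rfl⟩
    obtain ⟨h1, t', a', b', ht', ha', hb', hta', htb', hab', -, hn, -, -⟩ := hAlt 0 (Or.inl rfl) _ _ D
    have h2 := D.box h'
    rw [scz_zero (8 * R + 20), scz_zero (8 * R + 20)] at h2
    -- everything is connected to `a`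
    have hall : ∀ d : ℕ, d < 3 → RC (8 * R + 20) (per (8 * R + 20)
        (FF (8 * R + 20) (4 * (8 * R + 20)) R 0 G)) (scz (8 * R + 20) 0 d) (scz (8 * R + 20) 0 a) := by
      intro d hd
      have : d = t ∨ d = a ∨ d = b := by omega
      rcases this with rfl | rfl | rfl
      · exact h2
      · exact Relation.EqvGen.refl _
      · exact Relation.EqvGen.symm _ _ h1
    exact hn (Relation.EqvGen.trans _ _ _ (hall t' ht') (Relation.EqvGen.symm _ _ (hall a' ha')))
  · rintro ⟨x, hx, e, he, hcor⟩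
    have fin : ∀ c : ℤ, (c = 0 ∨ c = 1) → Cor {0} c e x → False := by
      intro c hc hcx
      have D : DD (8 * R + 20) (4 * (8 * R + 20)) R c := ⟨hR, rfl, rfl, hc⟩
      obtain ⟨h1, t', a', b', ht', ha', hb', hta', htb', hab', hRab, hRta, hOt, hOa⟩ :=
        hAlt c hc _ _ D
      have hO := D.outw (G := G) ht hx he hcx
      have htt : t' ≠ t := by
        rintro rfl
        exact hOt hO
      -- `t'` is `a` or `b`, and `t` is `a'` or `b'`
      have h1' := Relation.EqvGen.symm _ _ h1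
      have hRab' := Relation.EqvGen.symm _ _ hRab
      have h3 : t' = a ∨ t' = b := by omega
      have h4 : (a' = t ∧ b' ≠ t') ∨ (b' = t ∧ a' ≠ t') := by omega
      rcases h4 with ⟨e1, e2⟩ | ⟨e1, e2⟩
      · subst e1
        have h5 : (t' = a ∧ b' = b) ∨ (t' = b ∧ b' = a) := by omega
        rcases h5 with ⟨rfl, rfl⟩ | ⟨rfl, rfl⟩
        · exact hRta (Relation.EqvGen.trans _ _ _ h1 hRab')
        · exact hRta (Relation.EqvGen.trans _ _ _ h1' hRab')
      · subst e1
        have h5 : (t' = a ∧ a' = b) ∨ (t' = b ∧ a' = a) := by omega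
        rcases h5 with ⟨rfl, rfl⟩ | ⟨rfl, rfl⟩
        · exact hRta h1
        · exact hRta h1'
    rcases hcor with hcor | hcor
    · exact fin 0 (Or.inl rfl) hcor
    · exact fin 1 (Or.inr rfl) hcor

end Pool.Agent.W756.KI.TTRIB
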