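import Pool.Agent.W424.KI.Stm
import Pool.Agent.W756.KI.TribA

/-!
Task TRIB of project KI: topology of the box from the trichotomy of the cylinder.
-/

set_option autoImplicit false

namespace Pool.Agent.W756.KI
open H974 H906.Cyl
open Pool.Agent.W801.OU
open Pool.Agent.W424.KI

theorem t_TRIB : Pool.Agent.W801.OU.S_TRIc → S_TRIB := by
  intro hT R G hR t a b ht ha hb hta htb hab h
  exact TTRIB.main hT R G hR t a b ht ha hb hta htb hab h

end Pool.Agent.W756.KI
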