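import Pool.Agent.W801.OS.Stm3
import Pool.Agent.W756.KI.TribA

/-!
Task TRIB of project OS: topology of the box from the trichotomy of the cylinder.
-/

set_option autoImplicit false

namespace Pool.Agent.W756.KI
open H974 H906.Cyl
open Pool.Agent.W801.OU

theorem t_TRIBos : Pool.Agent.W801.OU.S_TRIc → Pool.Agent.W801.OS.S_TRIB := by
  intro hT R G hR t a b ht ha hb hta htb hab h
  obtain ⟨h1, h2⟩ := TTRIB.main hT R G hR t a b ht ha hb hta htb hab h
  exact ⟨h1, fun x hx e he hc => h2 ⟨x, hx, e, he, hc⟩⟩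

end Pool.Agent.W756.KI
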